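import Pool.Agent.Run7.h951.BG.Stm

open MeasureTheory Filter Topology Polynomial
open Pool.Agent.Run7.h951.BG

namespace Run7.h793.BG

theorem cont_pl : Continuous fun z : ℂ => ((Real.posLog ‖z‖ : ℝ) : EReal) :=
  continuous_coe_real_ereal.comp (Real.continuous_posLog.comp continuous_norm)

theorem pl_mean (z : ℂ) (r : ℝ) (hr : 0 < r) (g : ℂ → ℝ) (hg : Continuous g)
    (h : ∀ w, ‖w - z‖ = r → Real.posLog ‖w‖ ≤ g w) : Real.posLog ‖z‖ ≤ Real.circleAverage g z r := by
  have hsph : ∀ x ∈ Metric.sphere z |r|, ‖x - z‖ = r := by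
    intro x hx
    rw [Metric.mem_sphere, dist_eq_norm, abs_of_pos hr] at hx
    exact hx
  rcases le_or_gt ‖z‖ 1 with h1 | h1
  · have : Real.posLog ‖z‖ = 0 := by
      rw [Real.posLog_eq_zero_iff, abs_of_nonneg (norm_nonneg z)]
      exact h1
    rw [this]
    apply Real.circleAverage_nonneg_of_nonneg
    intro x hx
    exact le_trans Real.posLog_nonneg (h x (hsph x hx))
  · have e1 : Real.posLog ‖z‖ = Real.log ‖z‖ := Real.posLog_eq_log (by rw [abs_of_nonneg (norm_nonneg z)]; exact h1.le)
    have e2 := circleAverage_log_norm_sub_const_eq_log_radius_add_posLog (a := 0) (c := z) (R := r) hr.ne'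
    have i1 : CircleIntegrable (fun w : ℂ => Real.log ‖w - 0‖) z r := circleIntegrable_log_norm_sub_const r
    have i2 : CircleIntegrable g z r := hg.continuousOn.circleIntegrable hr.le
    have e3 := Real.circleAverage_mono i1 i2 (fun x hx => by
      have := h x (hsph x hx)
      rw [sub_zero]
      refine le_trans ?_ this
      rw [Real.posLog_apply]
      exact le_max_right _ _)
    refine le_trans ?_ e3
    rw [e2, e1, sub_zero]
    have e4 : Real.log (r⁻¹ * ‖z‖) ≤ Real.posLog (r⁻¹ * ‖z‖) := by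
      rw [Real.posLog_apply]
      exact le_max_right _ _
    have e5 : Real.log (r⁻¹ * ‖z‖) = - Real.log r + Real.log ‖z‖ := by
      rw [Real.log_mul (inv_ne_zero hr.ne') (by linarith), Real.log_inv]
    linarith

theorem t_POS : S_POS := by
  refine ⟨cont_pl.upperSemicontinuous, fun z => EReal.coe_ne_top _, ?_⟩
  intro z r hr g hg h
  have := pl_mean z r hr g hg (fun w hw => by
    have h1 : ((Real.posLog ‖w‖ : ℝ) : EReal) ≤ ((g w : ℝ) : EReal) := h w hw
    exact_mod_cast h1)
  show ((Real.posLog ‖z‖ : ℝ) : EReal) ≤ ((Real.circleAverage g z r : ℝ) : EReal)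
  exact_mod_cast this

end Run7.h793.BG

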